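import Mathlib
import Pool.Agent.Lib.MP_404fd0_co.Defs
import Pool.Agent.Lib.MP_404fd0_co.Union

namespace Pool.Agent.Results.MP_404fd0_co.OnePointUnion

open Pool.Agent.Lib.MP_404fd0_co

/-- Every one-point union of pairwise non-isomorphic complete bipartite graphs is graceful,
whatever the choice of the vertices that are identified. -/
theorem result (t : ℕ) (m n : Fin t → ℕ) (hm : ∀ i, 1 ≤ m i) (hn : ∀ i, 1 ≤ n i)
    (hiso : ∀ i j, i ≠ j → IsEmpty (completeBipartiteGraph (Fin (m i)) (Fin (n i)) ≃g
      completeBipartiteGraph (Fin (m j)) (Fin (n j))))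
    (v : ∀ i, Fin (m i) ⊕ Fin (n i)) :
    Graceful (onePointUnion (fun i => completeBipartiteGraph (Fin (m i)) (Fin (n i))) v) :=
  union_graceful t m n hm hn hiso v

end Pool.Agent.Results.MP_404fd0_co.OnePointUnion
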